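import Pool.Agent.Run7.h241.CS.Iface

/-! Project CS (helper241, MP_176ace_nt), piece CNT (helper13). -/

set_option autoImplicit false

namespace Run7.h13.CS

open Run7.h241.CS
open Polynomial Filter Topology

/-- the number of the negative gaps -/
def gapEquiv (n : ℕ) : {i : Fin n // (i : ℕ) + 1 < n ∧ Even (n - (i : ℕ))} ≃ Fin (n / 2) where
  toFun i := ⟨(n - (i.1 : ℕ)) / 2 - 1, by
    have h1 := i.2.1
    have h2 := i.1.2
    omega⟩
  invFun k := ⟨⟨n - 2 * ((k : ℕ) + 1), by have := k.2; omega⟩, by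
    have := k.2
    refine ⟨?_, ?_⟩
    · simp only; omega
    · simp only
      exact ⟨(k : ℕ) + 1, by omega⟩⟩
  left_inv i := by
    obtain ⟨⟨i, hi⟩, h1, h2⟩ := i
    obtain ⟨r, hr⟩ := h2
    apply Subtype.ext
    apply Fin.ext
    simp only at h1 hr ⊢
    omega
  right_inv k := by
    have := k.2
    apply Fin.ext
    simp only
    omega

theorem t_CNT (h1 : S_CNT1) (h2 : S_CNT2) : S_CNT := by
  classical
  intro R hR hNT r₁ r₂ hr
  set n := R.card with hn
  set a : Fin n ↪o ℝ := R.orderEmbOfFin rfl with ha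
  have hprod : (∏ l, (X - C (a l)) : ℝ[X]) = PR R := by
    unfold PR
    have : Finset.univ.map a.toEmbedding = R := by
      rw [ha]; exact Finset.map_orderEmbOfFin_univ R rfl
    conv_rhs => rw [← this]
    rw [Finset.prod_map]
    rfl
  obtain ⟨d, hd, hcrit, hcount⟩ := h2 n a hR a.strictMono
  rw [hprod] at hcrit hcount
  have hlt : ∀ i j : {i : Fin n // (i : ℕ) + 1 < n ∧ Even (n - (i : ℕ))}, d i = d j →
      ¬ (i.1 : ℕ) < (j.1 : ℕ) := by
    intro i j hij hlt
    obtain ⟨x, x1, x2, x3, x4⟩ := hcrit i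
    obtain ⟨y, y1, y2, y3, y4⟩ := hcrit j
    have hxy : x = y := hNT x y x3 y3 (by rw [x4, y4, hij]) (by rw [x4]; linarith [hd i])
    have h5 := x2 i.2.1
    have h6 : a ⟨(i.1 : ℕ) + 1, i.2.1⟩ ≤ a j.1 := by
      apply a.monotone
      rw [Fin.le_def]
      simp only
      omega
    rw [hxy] at h5
    linarith
  have hinj : Function.Injective d := by
    intro i j hij
    have k1 := hlt i j hij
    have k2 := hlt j i hij.symm
    apply Subtype.ext
    apply Fin.ext
    omega
  have hcard : Fintype.card {i : Fin n // (i : ℕ) + 1 < n ∧ Even (n - (i : ℕ))} = n / 2 := by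
    rw [Fintype.card_congr (gapEquiv n), Fintype.card_fin]
  obtain ⟨v₁, v₂, w1, w2, w3⟩ := h1 _ d hd hinj (n / 2 - r₂) (by rw [hcard]; omega)
  refine ⟨v₁, v₂, w1, w2, fun v hv hv' => ?_⟩
  obtain ⟨w4, w5⟩ := w3 v hv hv'
  rw [hcount v (by linarith) w4, w5]
  omega

end Run7.h13.CS
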