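import Pool.Agent.Run7.h241.CS.Iface

/-! Project CS (helper241, MP_176ace_nt), piece CNT1 (helper13). -/

set_option autoImplicit false

namespace Run7.h13.CS

open Run7.h241.CS
open Polynomial Filter Topology

theorem aux (D : Finset ℝ) : (∀ x ∈ D, 0 < x) → ∀ B : ℝ, 0 < B → (∀ x ∈ D, x < B) →
    ∀ j : ℕ, j ≤ D.card → ∃ v₁ v₂ : ℝ, 0 < v₁ ∧ v₁ < v₂ ∧ v₂ ≤ B ∧
      ∀ v, v₁ < v → v < v₂ → v ∉ D ∧ (D.filter (fun x => v < x)).card = j := by
  induction D using Finset.induction_on_max with
  | empty =>
    intro _ B hB _ j hj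
    rw [Finset.card_empty, Nat.le_zero] at hj
    subst hj
    exact ⟨B / 2, B, by positivity, by linarith, le_rfl, fun v _ _ => by simp⟩
  | insert a D hD ih =>
    intro hpos B hB hlt j hj
    have ha : 0 < a := hpos a (Finset.mem_insert_self a D)
    have haD : a ∉ D := fun h => lt_irrefl _ (hD a h)
    rcases j with _ | j
    · refine ⟨a, B, ha, hlt a (Finset.mem_insert_self a D), le_rfl, fun v hv _ => ⟨?_, ?_⟩⟩
      · intro h
        rcases Finset.mem_insert.1 h with h | h
        · linarith
        · linarith [hD v h]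
      · rw [Finset.card_eq_zero, Finset.filter_eq_empty_iff]
        intro x hx
        rcases Finset.mem_insert.1 hx with h | h
        · linarith
        · linarith [hD x h]
    · rw [Finset.card_insert_of_notMem haD] at hj
      obtain ⟨v₁, v₂, h1, h2, h3, h4⟩ := ih (fun x hx => hpos x (Finset.mem_insert_of_mem hx)) a ha
        hD j (by omega)
      refine ⟨v₁, v₂, h1, h2, h3.trans (hlt a (Finset.mem_insert_self a D)).le,
        fun v hv hv' => ?_⟩
      obtain ⟨h5, h6⟩ := h4 v hv hv'
      have hva : v < a := lt_of_lt_of_le hv' h3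
      refine ⟨?_, ?_⟩
      · intro h
        rcases Finset.mem_insert.1 h with h | h
        · linarith
        · exact h5 h
      · rw [Finset.filter_insert, if_pos hva, Finset.card_insert_of_notMem, h6]
        intro h
        exact haD (Finset.mem_filter.1 h).1

theorem t_CNT1 : S_CNT1 := by
  classical
  intro ι _ d hd hinj j hj
  set D : Finset ℝ := Finset.univ.image d with hD
  have hcard : D.card = Fintype.card ι := by
    rw [hD, Finset.card_image_of_injective _ hinj, Finset.card_univ]
  obtain ⟨B, hB⟩ : ∃ B : ℝ, ∀ x ∈ D, x < B := by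
    obtain ⟨M, hM⟩ := D.bddAbove
    exact ⟨M + 1, fun x hx => lt_of_le_of_lt (hM hx) (lt_add_one M)⟩
  obtain ⟨v₁, v₂, h1, h2, -, h4⟩ := aux D (fun x hx => by
      obtain ⟨i, -, rfl⟩ := Finset.mem_image.1 hx
      exact hd i) (max B 1) (by positivity) (fun x hx => lt_of_lt_of_le (hB x hx) (le_max_left _ _))
      j (by rw [hcard]; exact hj)
  refine ⟨v₁, v₂, h1, h2, fun v hv hv' => ?_⟩
  obtain ⟨h5, h6⟩ := h4 v hv hv'
  refine ⟨fun i hi => h5 (Finset.mem_image.2 ⟨i, Finset.mem_univ _, hi⟩), ?_⟩
  have h7 : {i | v < d i} = ((Finset.univ.filter (fun i => v < d i) : Finset ι) : Set ι) := by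
    ext i; simp
  rw [h7, Set.ncard_coe_finset, ← h6, hD, Finset.filter_image,
    Finset.card_image_of_injective _ hinj]

end Run7.h13.CS
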