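import Pool.Agent.Run7.h241.CS.Iface

/-! Project CS (helper241, MP_176ace_nt), piece CON (helper13). -/

set_option autoImplicit false

namespace Run7.h13.CS

open Run7.h241.CS
open Polynomial Filter Topology

/-- the half axis of the conic -/
noncomputable def cc : ℝ := 2 * Real.sqrt (7 / 3)

theorem cc_sq : cc ^ 2 = 28 / 3 := by
  unfold cc
  rw [mul_pow, Real.sq_sqrt (by norm_num)]
  norm_num

theorem cc_pos : 0 < cc := by
  unfold cc
  positivity

theorem cos23 : Real.cos (2 * Real.pi / 3) = -1 / 2 := by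
  rw [show 2 * Real.pi / 3 = Real.pi - Real.pi / 3 by ring, Real.cos_pi_sub,
    Real.cos_pi_div_three]
  norm_num

theorem sin23 : Real.sin (2 * Real.pi / 3) = Real.sqrt 3 / 2 := by
  rw [show 2 * Real.pi / 3 = Real.pi - Real.pi / 3 by ring, Real.sin_pi_sub,
    Real.sin_pi_div_three]

theorem cos_add23 (t : ℝ) : Real.cos (t + 2 * Real.pi / 3) =
    -(1 / 2) * Real.cos t - Real.sqrt 3 / 2 * Real.sin t := by
  rw [Real.cos_add, cos23, sin23]
  ring

/-- the points of the conic -/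
theorem conic_param (x y : ℝ) (h : x ^ 2 + x * y + y ^ 2 = 7) :
    ∃ t ∈ Set.Icc (-Real.pi) Real.pi, cc * Real.cos t = x ∧
      cc * Real.cos (t + 2 * Real.pi / 3) = y := by
  have h3 : Real.sqrt 3 ^ 2 = 3 := Real.sq_sqrt (by norm_num)
  have hc := cc_sq
  have hc0 := cc_pos
  have hx2 : x ^ 2 ≤ cc ^ 2 := by
    rw [hc]
    nlinarith [sq_nonneg (x + 2 * y)]
  have hx : |x / cc| ≤ 1 := by
    rw [abs_div, abs_of_pos hc0, div_le_one hc0]
    exact abs_le_of_sq_le_sq hx2 hc0.le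
  rw [abs_le] at hx
  set s := Real.arccos (x / cc) with hs
  have hcs : Real.cos s = x / cc := Real.cos_arccos hx.1 hx.2
  have hs0 : 0 ≤ s := Real.arccos_nonneg _
  have hs1 : s ≤ Real.pi := Real.arccos_le_pi _
  have hcx : cc * Real.cos s = x := by rw [hcs]; field_simp
  have hsin : Real.sin s ^ 2 = 1 - Real.cos s ^ 2 := by
    have := Real.sin_sq_add_cos_sq s
    linarith
  -- `(2 y + x)^2 = 3 cc^2 sin^2`
  have hkey : (2 * y + x - Real.sqrt 3 * cc * Real.sin s) *
      (2 * y + x + Real.sqrt 3 * cc * Real.sin s) = 0 := by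
    have h5 : (Real.sqrt 3 * cc * Real.sin s) ^ 2 = 28 - 3 * x ^ 2 := by
      rw [mul_pow, mul_pow, h3, hsin, hc, hcs, div_pow, hc]
      ring
    nlinarith
  rcases mul_eq_zero.1 hkey with h6 | h6
  · refine ⟨-s, ⟨by linarith, by linarith [Real.pi_pos]⟩, ?_, ?_⟩
    · rw [Real.cos_neg]; exact hcx
    · rw [cos_add23, Real.cos_neg, Real.sin_neg]
      have : cc * (-(1 / 2) * Real.cos s - Real.sqrt 3 / 2 * -Real.sin s) =
          -(1 / 2) * (cc * Real.cos s) + 1 / 2 * (Real.sqrt 3 * cc * Real.sin s) := by ring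
      rw [this, hcx]
      linarith
  · refine ⟨s, ⟨by linarith [Real.pi_pos], hs1⟩, hcx, ?_⟩
    rw [cos_add23]
    have : cc * (-(1 / 2) * Real.cos s - Real.sqrt 3 / 2 * Real.sin s) =
        -(1 / 2) * (cc * Real.cos s) - 1 / 2 * (Real.sqrt 3 * cc * Real.sin s) := by ring
    rw [this, hcx]
    linarith

theorem t_CON : S_CON := by
  intro A ε hε hinf
  have hε2 : ε ^ 2 = 1 := by rcases hε with rfl | rfl <;> norm_num
  set g : ℝ → ℝ := fun t => A.eval (cc * Real.cos t) -
    A.eval (ε * (cc * Real.cos (t + 2 * Real.pi / 3))) with hg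
  have han : AnalyticOnNhd ℝ g Set.univ := by
    intro t _
    have h1 : AnalyticAt ℝ (fun t : ℝ => cc * Real.cos t) t :=
      analyticAt_const.mul Real.analyticAt_cos
    have h2 : AnalyticAt ℝ (fun t : ℝ => ε * (cc * Real.cos (t + 2 * Real.pi / 3))) t :=
      analyticAt_const.mul (analyticAt_const.mul
        (Real.analyticAt_cos.comp (analyticAt_id.add analyticAt_const)))
    have h3 := h1.aeval_polynomial A
    have h4 := h2.aeval_polynomial A
    exact h3.sub h4
  set P : ℝ → ℝ × ℝ := fun t => (cc * Real.cos t, ε * (cc * Real.cos (t + 2 * Real.pi / 3)))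
    with hP
  set S : Set (ℝ × ℝ) := {p : ℝ × ℝ | p.1 ^ 2 + ε * (p.1 * p.2) + p.2 ^ 2 = 7 ∧
    A.eval p.1 = A.eval p.2} with hS
  set Z : Set ℝ := {t ∈ Set.Icc (-Real.pi) Real.pi | g t = 0} with hZ
  have hsub : S ⊆ P '' Z := by
    rintro ⟨x, y⟩ ⟨h1, h2⟩
    simp only at h1 h2
    have h3 : x ^ 2 + x * (ε * y) + (ε * y) ^ 2 = 7 := by
      have e1 : x ^ 2 + x * (ε * y) + (ε * y) ^ 2 = x ^ 2 + ε * (x * y) + ε ^ 2 * y ^ 2 := by ring
      rw [e1, hε2, one_mul]
      exact h1
    obtain ⟨t, ht, hx, hy⟩ := conic_param x (ε * y) h3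
    have hy' : ε * (cc * Real.cos (t + 2 * Real.pi / 3)) = y := by
      rw [hy, ← mul_assoc, ← sq, hε2, one_mul]
    refine ⟨t, ⟨ht, ?_⟩, ?_⟩
    · rw [hg]
      simp only
      rw [hx, hy', h2, sub_self]
    · rw [hP]
      simp only
      rw [hx, hy']
  have hZinf : Z.Infinite := by
    intro hfin
    exact hinf ((hfin.image P).subset hsub)
  obtain ⟨t₀, -, hacc⟩ := hZinf.exists_accPt_of_subset_isCompact
    (isCompact_Icc (a := -Real.pi) (b := Real.pi)) (fun t ht => ht.1)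
  have hfr : ∃ᶠ t in 𝓝[≠] t₀, g t = 0 := by
    rw [accPt_iff_frequently_nhdsNE] at hacc
    exact hacc.mono fun t ht => ht.2
  have hzero := han.eqOn_zero_of_preconnected_of_frequently_eq_zero isPreconnected_univ
    (Set.mem_univ t₀) hfr (Set.mem_univ (Real.pi / 2))
  have h1 : g (Real.pi / 2) = 0 := hzero
  rw [hg] at h1
  simp only at h1
  rw [cos_add23, Real.cos_pi_div_two, Real.sin_pi_div_two] at h1
  have h7 : cc * (-(1 / 2) * 0 - Real.sqrt 3 / 2 * 1) = -Real.sqrt 7 := by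
    unfold cc
    have : Real.sqrt (7 / 3) * Real.sqrt 3 = Real.sqrt 7 := by
      rw [← Real.sqrt_mul (by norm_num)]
      norm_num
    linear_combination (-1 : ℝ) * this
  rw [h7, mul_zero] at h1
  rcases hε with rfl | rfl
  · right
    rw [one_mul] at h1
    linarith
  · left
    rw [neg_one_mul, neg_neg] at h1
    linarith

end Run7.h13.CS
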