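import Pool.Agent.Run7.h241.CS.Iface

/-! Project CS (helper241, MP_176ace_nt), piece MON (helper13). -/

set_option autoImplicit false

namespace Run7.h13.CS

open Run7.h241.CS
open Polynomial Filter Topology

theorem t_MON : S_MON := by
  intro a b φ ψ hab h
  by_contra hfin
  rw [Set.not_infinite] at hfin
  have hmono : MonotoneOn φ (Set.Ioo a b) := by
    intro x hx y hy hxy
    rcases hxy.lt_or_eq with hlt | heq
    · exact (h x y hx.1 hlt hy.2).1
    · rw [heq]
  have hcount := hmono.countable_not_continuousWithinAt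
  have hsub : Set.Ioo a b ⊆ {x | a < x ∧ x < b ∧ φ x = ψ x} ∪
      {x ∈ Set.Ioo a b | ¬ContinuousWithinAt φ (Set.Ioo a b) x} := by
    intro x hx
    by_cases hc : ContinuousWithinAt φ (Set.Ioo a b) x
    · left
      refine ⟨hx.1, hx.2, ?_⟩
      have hca : ContinuousAt φ x := hc.continuousAt (Ioo_mem_nhds hx.1 hx.2)
      apply le_antisymm
      · -- from the left
        have ht : Tendsto φ (𝓝[<] x) (𝓝 (φ x)) := hca.tendsto.mono_left nhdsWithin_le_nhds
        refine le_of_tendsto ht ?_
        filter_upwards [Ioo_mem_nhdsLT hx.1] with y hy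
        exact (h y x hy.1 hy.2 hx.2).2.2.1
      · have ht : Tendsto φ (𝓝[>] x) (𝓝 (φ x)) := hca.tendsto.mono_left nhdsWithin_le_nhds
        refine ge_of_tendsto ht ?_
        filter_upwards [Ioo_mem_nhdsGT hx.2] with y hy
        exact (h x y hx.1 hy.1 hy.2).2.2.2
    · right
      exact ⟨hx, hc⟩
  have hc2 : (Set.Ioo a b).Countable := (hfin.countable.union hcount).mono hsub
  have h0 := hc2.measure_zero MeasureTheory.volume
  rw [Real.volume_Ioo] at h0
  have h1 := ENNReal.ofReal_eq_zero.1 h0
  linarith

end Run7.h13.CS
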